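import Pool.Agent.Y6.M.Stm

/-!
# The main modes and the chain (job EM-TAB of helper6)
-/

open Set Filter Topology
open scoped ComplexConjugate

set_option autoImplicit false

namespace Pool.Agent.Y590.EM.Tab

open Pool.Agent.Y6.M

/-! ### two finite sums -/

theorem mq_one {I : Type} (σ : I → ℝ) (c : I → I → I → ℂ) (z : I → ℂ) (i a b : I)
    (hab : a ≠ b) (ha : σ a = 0) (hb : σ b = 0)
    (H : ∀ p : I × I, σ p.1 = 0 → σ p.2 = 0 → c i p.1 p.2 ≠ 0 → p = (a, b) ∨ p = (b, a)) :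
    mq σ c z i = (c i a b + c i b a) * z a * z b := by
  classical
  unfold mq
  rw [tsum_eq_sum (s := ({(a, b), (b, a)} : Finset (I × I)))]
  · rw [Finset.sum_insert (by
      simp only [Finset.mem_singleton, Prod.mk.injEq, not_and]
      intro h; exact absurd h hab), Finset.sum_singleton]
    simp only [ha, hb, and_self, if_true]
    ring
  · intro p hp
    by_cases h : σ p.1 = 0 ∧ σ p.2 = 0
    · rw [if_pos h]
      by_cases h2 : c i p.1 p.2 = 0
      · rw [h2, zero_mul, zero_mul]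
      · exfalso
        apply hp
        rcases H p h.1 h.2 h2 with h3 | h3
        · rw [h3]; exact Finset.mem_insert_self _ _
        · rw [h3]; exact Finset.mem_insert_of_mem (Finset.mem_singleton_self _)
    · rw [if_neg h]

theorem mq_twice {I : Type} (σ : I → ℝ) (c : I → I → I → ℂ) (z : I → ℂ) (i a b a' b' : I)
    (ha : σ a = 0) (hb : σ b = 0) (ha' : σ a' = 0) (hb' : σ b' = 0)
    (hab : a ≠ b) (hab' : a' ≠ b') (h1 : a ≠ a') (h2 : a ≠ b')
    (H : ∀ p : I × I, σ p.1 = 0 → σ p.2 = 0 → c i p.1 p.2 ≠ 0 →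
      (p = (a, b) ∨ p = (b, a)) ∨ p = (a', b') ∨ p = (b', a')) :
    mq σ c z i = (c i a b + c i b a) * z a * z b + (c i a' b' + c i b' a') * z a' * z b' := by
  classical
  unfold mq
  rw [tsum_eq_sum (s := ({(a, b), (b, a), (a', b'), (b', a')} : Finset (I × I)))]
  · rw [Finset.sum_insert, Finset.sum_insert, Finset.sum_insert, Finset.sum_singleton]
    · simp only [ha, hb, ha', hb', and_self, if_true]
      ring
    · simp only [Finset.mem_singleton, Prod.mk.injEq, not_and]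
      intro h; exact absurd h hab'
    · simp only [Finset.mem_insert, Finset.mem_singleton, Prod.mk.injEq, not_or, not_and]
      exact ⟨fun _ h => h2 h, fun _ h => h1 h⟩
    · simp only [Finset.mem_insert, Finset.mem_singleton, Prod.mk.injEq, not_or, not_and]
      exact ⟨fun h => absurd h hab, fun h => absurd h h1, fun h => absurd h h2⟩
  · intro p hp
    by_cases h : σ p.1 = 0 ∧ σ p.2 = 0
    · rw [if_pos h]
      by_cases h2 : c i p.1 p.2 = 0
      · rw [h2, zero_mul, zero_mul]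
      · exfalso
        apply hp
        simp only [Finset.mem_insert, Finset.mem_singleton]
        rcases H p h.1 h.2 h2 with (h3 | h3) | h3 | h3
        · exact Or.inl h3
        · exact Or.inr (Or.inl h3)
        · exact Or.inr (Or.inr (Or.inl h3))
        · exact Or.inr (Or.inr (Or.inr h3))
    · rw [if_neg h]

/-! ### lengths -/

theorem nsq_neg (k : Z3) : nsq (-k) = nsq k := by
  unfold nsq
  simp

theorem len_neg (k : Z3) : len (-k) = len k := by
  unfold len
  rw [nsq_neg]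

theorem nsq_kx (n : ℕ) : nsq (kx n) = (al n : ℤ) ^ 2 := by
  unfold nsq kx
  generalize al n = A
  rw [Fin.sum_univ_three]
  have h : n % 3 = 0 ∨ n % 3 = 1 ∨ n % 3 = 2 := by omega
  rcases h with h | h | h <;> simp [h]

theorem len_kx (n : ℕ) : len (kx n) = αM n := by
  unfold len αM
  rw [nsq_kx]
  push_cast
  exact Real.sqrt_sq (Nat.cast_nonneg _)

theorem nsq_ky (n : ℕ) : nsq (kx n + kx (n + 1)) = (al n : ℤ) ^ 2 + (al (n + 1) : ℤ) ^ 2 := by
  unfold nsq kx
  generalize al n = A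
  generalize al (n + 1) = B
  rw [Fin.sum_univ_three]
  have h : (n % 3 = 0 ∧ (n + 1) % 3 = 1) ∨ (n % 3 = 1 ∧ (n + 1) % 3 = 2) ∨
    (n % 3 = 2 ∧ (n + 1) % 3 = 0) := by omega
  rcases h with ⟨h, h'⟩ | ⟨h, h'⟩ | ⟨h, h'⟩ <;> simp [h, h'] <;> ring

theorem len_ky (n : ℕ) : len (kx n + kx (n + 1)) = ρM n := by
  unfold len ρM αM
  rw [nsq_ky]
  push_cast
  rfl

/-! ### vector algebra -/

theorem dt_comm (a b : C3) : dt a b = dt b a := by
  unfold dt
  exact Finset.sum_congr rfl fun j _ => mul_comm _ _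

theorem triple (a b c : C3) : dt (cr a b) c = dt a (cr b c) := by
  simp only [dt, cr, Fin.sum_univ_three, Matrix.cons_val_zero, Matrix.cons_val_one,
    Matrix.cons_val]
  ring

theorem triple' (a b c : C3) : dt (cr a b) c = -dt a (cr c b) := by
  simp only [dt, cr, Fin.sum_univ_three, Matrix.cons_val_zero, Matrix.cons_val_one,
    Matrix.cons_val]
  ring

theorem conj_dt (a b : C3) : conj (dt a b) = dt (cj a) (cj b) := by
  simp only [dt, cj, Fin.sum_univ_three, map_add, map_mul]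

theorem cj_cj (a : C3) : cj (cj a) = a := by
  funext j
  simp [cj]

theorem cj_cr (a b : C3) : cj (cr a b) = cr (cj a) (cj b) := by
  funext j
  fin_cases j <;> simp [cj, cr]

theorem conj_GM (h : Md → C3) (n : ℕ) : conj (GM h n) =
    2 * Real.pi * dt (h (Ym n)) (cr (cj (h (Xm n))) (cj (h (Xm (n + 1))))) := by
  unfold GM
  rw [map_mul, map_mul, conj_dt, cj_cj, cj_cr, Complex.conj_ofReal]
  congr 2
  exact Complex.conj_ofNat 2

/-! ### the three sums -/

theorem sumY (hV : S_VEC1) (h : Md → C3) (hF : Frame h) (n : ℕ) :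
    cK h (Ym n) (Xm n) (Xm (n + 1)) + cK h (Ym n) (Xm (n + 1)) (Xm n) =
      GM h n * ((dM n : ℝ) : ℂ) := by
  rw [hV h hF (Ym n) (Xm n) (Xm (n + 1)) rfl]
  have h1 : hs (Xm (n + 1)).2 * len (Xm (n + 1)).1.1 - hs (Xm n).2 * len (Xm n).1.1 = dM n := by
    change hs true * len (kx (n + 1)) - hs true * len (kx n) = dM n
    rw [len_kx, len_kx]
    simp [hs, dM]
  rw [h1]
  unfold GM
  rw [dt_comm (cj (h (Ym n)))]
  ring

theorem sumX1 (hV : S_VEC1) (h : Md → C3) (hF : Frame h) (n : ℕ) :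
    cK h (Xm n) (Ym n) (br (Xm (n + 1))) + cK h (Xm n) (br (Xm (n + 1))) (Ym n) =
      -(conj (GM h n) * ((bM n + dM n : ℝ) : ℂ)) := by
  rw [hV h hF (Xm n) (Ym n) (br (Xm (n + 1)))
    (by change kx n + kx (n + 1) + -kx (n + 1) = kx n; abel)]
  have h1 : hs (br (Xm (n + 1))).2 * len (br (Xm (n + 1))).1.1 - hs (Ym n).2 * len (Ym n).1.1 =
      bM n + dM n := by
    change hs true * len (-kx (n + 1)) - hs false * len (kx n + kx (n + 1)) = _
    rw [len_neg, len_kx, len_ky]
    simp only [hs, bM, dM, if_true, Bool.false_eq_true, if_false]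
    ring
  rw [h1, conj_GM, hF.bar, triple']
  ring

theorem sumX2 (hV : S_VEC1) (h : Md → C3) (hF : Frame h) (m : ℕ) :
    cK h (Xm (m + 1)) (Ym m) (br (Xm m)) + cK h (Xm (m + 1)) (br (Xm m)) (Ym m) =
      conj (GM h m) * ((bM m : ℝ) : ℂ) := by
  rw [hV h hF (Xm (m + 1)) (Ym m) (br (Xm m))
    (by change kx m + kx (m + 1) + -kx m = kx (m + 1); abel)]
  have h1 : hs (br (Xm m)).2 * len (br (Xm m)).1.1 - hs (Ym m).2 * len (Ym m).1.1 = bM m := by
    change hs true * len (-kx m) - hs false * len (kx m + kx (m + 1)) = _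
    rw [len_neg, len_kx, len_ky]
    simp only [hs, bM, if_true, Bool.false_eq_true, if_false]
    ring
  rw [h1, conj_GM, hF.bar, triple]
  ring

theorem cK_ne {h : Md → C3} {i a b : Md} (H : cK h i a b ≠ 0) : a.1.1 + b.1.1 = i.1.1 := by
  by_contra hc
  apply H
  unfold cK
  rw [if_neg hc]

theorem Y_ne_brX (n m : ℕ) : Ym n ≠ br (Xm m) := by
  intro h
  have h1 := congrArg Prod.snd h
  exact Bool.false_ne_true h1

theorem t_TAB : Pool.Agent.Y6.M.S_TAB := by
  intro hLV hSUMS hVEC h hF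
  obtain ⟨l1, l2, l3, l4, l5, l6, l7, injX, injY, l8, l9⟩ := hLV
  obtain ⟨s1, s2, s3, s4⟩ := hSUMS
  refine ⟨fun n => (l1 n).1, fun n => (l1 n).2.2.1, fun n => (l2 n).1, fun n => (l2 n).2.2.1,
    l3, ?_, ?_⟩
  · intro z hz n
    rcases n with _ | m
    · rw [mq_one σM (cK h) z (Xm 0) (Ym 0) (br (Xm 1)) (Y_ne_brX 0 1) (l2 0).2.2.1 (l2 1).2.1,
        sumX1 hVEC h hF 0, hz]
      · unfold cX
        ring
      · rintro ⟨a, b⟩ ha hb hc
        rcases s1 0 a b ha hb (cK_ne hc) with ⟨h1, h2⟩ | ⟨h1, h2⟩ | ⟨m, h1, _⟩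
        · left; rw [h1, h2]
        · right; rw [h1, h2]
        · exact absurd h1 (Nat.succ_ne_zero m).symm
    · rw [mq_twice σM (cK h) z (Xm (m + 1)) (Ym (m + 1)) (br (Xm (m + 2))) (Ym m) (br (Xm m))
        (l2 _).2.2.1 (l2 _).2.1 (l2 _).2.2.1 (l2 _).2.1 (Y_ne_brX _ _) (Y_ne_brX _ _)
        (fun hh => absurd (injY hh) (Nat.succ_ne_self m)) (Y_ne_brX _ _),
        sumX1 hVEC h hF (m + 1), sumX2 hVEC h hF m, hz, hz]
      · unfold cX
        ring
      · rintro ⟨a, b⟩ ha hb hc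
        rcases s1 (m + 1) a b ha hb (cK_ne hc) with ⟨h1, h2⟩ | ⟨h1, h2⟩ | ⟨m', h1, h2⟩
        · left; left; rw [h1, h2]
        · left; right; rw [h1, h2]
        · have h3 : m' = m := by omega
          subst h3
          rcases h2 with ⟨h4, h5⟩ | ⟨h4, h5⟩
          · right; left; rw [h4, h5]
          · right; right; rw [h4, h5]
  · intro z hz n
    rw [mq_one σM (cK h) z (Ym n) (Xm n) (Xm (n + 1))
      (fun hh => absurd (injX hh) (Nat.succ_ne_self n).symm) (l2 _).1 (l2 _).1,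
      sumY hVEC h hF n]
    · rfl
    · rintro ⟨a, b⟩ ha hb hc
      rcases s2 n a b ha hb (cK_ne hc) with ⟨h1, h2⟩ | ⟨h1, h2⟩
      · left; rw [h1, h2]
      · right; rw [h1, h2]

end Pool.Agent.Y590.EM.Tab
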